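import Pool.Agent.R798.MonoP3.Main

namespace Pool.Agent.Results.MP_e0c710_co.CriticalReduction

open Pool.Agent.R798.MonoP3

/-- Let `G` be a finite graph with chromatic number at least 6 whose edges are coloured with three
colours.  Then either there is a monochromatic path with three edges, or `G` has an induced
subgraph `H = G[s]` with `χ(H) ≥ 6`, with `χ(H - v) ≤ 5` for every vertex `v` of `H`, with no
complete subgraph on five vertices, with minimum degree at least 5 and with average degree at
most 6. -/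
theorem result (V : Type) [Fintype V] (G : SimpleGraph V) (hχ : 6 ≤ G.chromaticNumber)
    (col : Sym2 V → Fin 3) :
    (∃ a b c d : V, G.Adj a b ∧ G.Adj b c ∧ G.Adj c d ∧ a ≠ c ∧ b ≠ d ∧ a ≠ d ∧
      col s(a, b) = col s(b, c) ∧ col s(b, c) = col s(c, d)) ∨
    ∃ s : Finset V,
      6 ≤ (G.induce (s : Set V)).chromaticNumber ∧
      (∀ v ∈ s, (G.induce ((s : Set V) \ {v})).chromaticNumber ≤ 5) ∧
      (G.induce (s : Set V)).CliqueFree 5 ∧
      (∀ v ∈ s, 5 ≤ {w | w ∈ s ∧ G.Adj v w}.ncard) ∧
      ∑ v ∈ s, {w | w ∈ s ∧ G.Adj v w}.ncard ≤ 6 * s.card := by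
  classical
  by_cases hm : ∃ a b c d : V, G.Adj a b ∧ G.Adj b c ∧ G.Adj c d ∧ a ≠ c ∧ b ≠ d ∧ a ≠ d ∧
      col s(a, b) = col s(b, c) ∧ col s(b, c) = col s(c, d)
  · exact Or.inl hm
  · right
    have hcol : NoMono G col := by
      intro a b c d h1 h2 h3 h4 h5 h6 h7 h8
      exact hm ⟨a, b, c, d, h1, h2, h3, h4, h5, h6, h7, h8⟩
    have hnc : ¬ Col5 G Finset.univ := by
      intro h
      have h5 := (col5_univ G h).chromaticNumber_le
      have h6 := le_trans hχ h5
      exact absurd h6 (by decide)
    obtain ⟨s, hs, hmin⟩ := exists_min G hnc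
    have hdeg : ∀ v ∈ s, 5 ≤ (s.filter (G.Adj v)).card :=
      fun v hv => min_degree G hs hmin hv
    have hcard : ∀ v : V, {w | w ∈ s ∧ G.Adj v w}.ncard = (s.filter (G.Adj v)).card := by
      intro v
      rw [← Set.ncard_coe_finset]
      congr 1
      ext w
      simp
    refine ⟨s, ?_, ?_, clique_free G hcol hdeg, ?_, ?_⟩
    · have h : ¬ (G.induce (s : Set V)).Colorable 5 := fun h => hs ((col5_iff G s).2 h)
      by_contra hlt
      push Not at hlt
      apply h
      have hle : (G.induce (s : Set V)).chromaticNumber ≤ 5 := Order.le_of_lt_succ hlt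
      exact SimpleGraph.chromaticNumber_le_iff_colorable.1 hle
    · intro v hv
      have h := (col5_iff G (s.erase v)).1 (hmin v hv)
      rw [Finset.coe_erase] at h
      exact h.chromaticNumber_le
    · intro v hv
      rw [hcard]; exact hdeg v hv
    · simp_rw [hcard]
      exact degree_bound G hcol s

end Pool.Agent.Results.MP_e0c710_co.CriticalReduction
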